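import Pool.Agent.K3h26.R6.Fin

/-!
# MP_c4753b_co, Q1: a convex body with `δ_L(K) < δ_T(K)` in every dimension `d ≥ 5`

In every dimension `d ≥ 5` there is a convex body `K ⊂ ℝ^d`, symmetric about the origin, whose
densest translative packing is strictly denser than its densest lattice packing. So the smallest
dimension of the question is at most `5`, and every larger dimension has the property as well.

The definitions (in `Pool.Agent.H947R2.TP.Defs`) are the ones of the problem:

* `eball d R` is the Euclidean ball of radius `R` centred at the origin of `ℝ^d = Fin d → ℝ`,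
* `tr x K = x + K`,
* `IsPacking K X`: the translates `x + K`, `x ∈ X`, have pairwise disjoint interiors,
* `density K X = limsup_{R → ∞} vol (B_R ∩ ⋃_{x ∈ X} (x + K)) / vol B_R`,
* `IsLattice X`: `X` is the set of all integer combinations of a basis of `ℝ^d`,
* `deltaT K`, `deltaL K`: the suprema of the densities over all packings, respectively over all
  packings by a lattice of translation vectors.

Sketch. Write `d = p + 5` and `x = (x', y)` with `x' ∈ ℝ^3`, `y ∈ ℝ^(p+2)`. The body is
`{x : ‖2x'‖_1 / 3 + ε ρ(2y) ≤ 1, ‖2x'‖_∞ / 2 + ε σ(2y) ≤ 1, ‖2y‖_∞ ≤ 1}` with small `ε > 0`,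
`σ(v)` the average of the `|v_l|` and `ρ(v) = (1 - λ)/2 + λ max(|v_1|, |v_2|)`, `λ` small: a
truncated octahedron times a cube whose faces are pushed in a little. The nonlattice packing
perturbs the tiling with the centres `(l, t(l) + z)`, `l` in the body centred cubic lattice,
`z ∈ ℤ^(p+2)`, where `t(l)` runs through `(0,0,…,0)`, `(1/2,0,…,0)`, `(1/2,1/2,…,1/2)`,
`(0,1/2,…,1/2)` with the index of `l` in `BCC / D ≅ ℤ/4`: neighbours over square faces differ by
`(1/2,…,1/2)` and neighbours over hexagonal faces by a vector with `max(|v_1|, |v_2|) = 1/2`, so
every face earns the reward `ε/2`. For lattice packings a compactness argument and a Bonferroni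
inequality bound the gain by the mean rewards over the seven pairs of faces of a lattice tiling; the
mean of `σ` over a square face is at most `1/2`, and near equality forces contacts close to all
`(±1/2,…,±1/2)` over the square faces; by additivity this makes the mean of `max(|v_1|, |v_2|)`
over the hexagonal faces at most `49/100 < 1/2`.
-/

set_option autoImplicit false

namespace Pool.Agent.Results.MP_c4753b_co.FromDimensionFive

open H947TP

/-- **Theorem.** In every dimension `d ≥ 5` there is a convex body `K` in `ℝ^d` (compact, convex,
with nonempty interior), symmetric about the origin, with `δ_L(K) < δ_T(K)`. -/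
theorem result : ∀ d : ℕ, 5 ≤ d → ∃ K : Set (Fin d → ℝ), Convex ℝ K ∧ IsCompact K ∧
    (interior K).Nonempty ∧ (∀ x ∈ K, -x ∈ K) ∧ deltaL K < deltaT K :=
  fun d hd => Pool.Agent.K3h26.R6.main_ge d hd

end Pool.Agent.Results.MP_c4753b_co.FromDimensionFive
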